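import Pool.Agent.Y947.RL.Stm2

/-!
# Project RL, ANA: contractions for the conjugates of `α`
-/

set_option autoImplicit false

open Finset Polynomial Module Pool.Agent.H388SL Pool.Agent.Y947.DL

namespace Pool.Agent.Y917.RL

open Pool.Agent.Y947.RL

section
variable {K : Type*} [Field K] [NumberField K]

/-- the values at `α` of the embeddings in a class -/
noncomputable def SS (ζ α : K) (ω : ℂ) : Finset ℂ := (cls ζ ω).image fun τ => τ α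

lemma mem_cls {ζ : K} {ω : ℂ} {τ : K →ₐ[ℚ] ℂ} : τ ∈ cls ζ ω ↔ τ ζ = ω := by
  simp [cls]

lemma mem_SS (ζ α : K) (σ : K →ₐ[ℚ] ℂ) : σ α ∈ SS ζ α (σ ζ) :=
  Finset.mem_image_of_mem (fun τ : K →ₐ[ℚ] ℂ => τ α) (mem_cls.2 rfl)

lemma inj_cls {m : ℕ} {ζ α : K} (h : Ctx m ζ α) (ω : ℂ) :
    Set.InjOn (fun τ : K →ₐ[ℚ] ℂ => τ α) (cls ζ ω) := by
  intro σ hσ τ hτ hst
  have h1 : σ ζ = ω := mem_cls.1 (Finset.mem_coe.1 hσ)
  have h2 : τ ζ = ω := mem_cls.1 (Finset.mem_coe.1 hτ)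
  exact h.gen σ τ (h1.trans h2.symm) hst

lemma prim {m : ℕ} {ζ : K} (hζ : IsPrimitiveRoot ζ m) (σ : K →ₐ[ℚ] ℂ) :
    IsPrimitiveRoot (σ ζ) m :=
  hζ.map_of_injective σ.injective

lemma mem_SS_iff (ζ α : K) (ω z : ℂ) :
    z ∈ SS ζ α ω ↔ (∏ τ ∈ cls ζ ω, ((X : ℂ[X]) - C (τ α))).eval z = 0 := by
  rw [eval_prod, Finset.prod_eq_zero_iff]
  simp only [SS, Finset.mem_image, eval_sub, eval_X, eval_C, sub_eq_zero]
  constructor
  · rintro ⟨τ, h1, h2⟩; exact ⟨τ, h1, h2.symm⟩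
  · rintro ⟨τ, h1, h2⟩; exact ⟨τ, h1, h2.symm⟩

lemma sum_refl_le {α : K} (hα : IsIntegral ℤ α) (h0 : α ≠ 0) :
    ∑ σ : K →ₐ[ℚ] ℂ, (1 - ‖H388SL.refl (σ α)‖) ≤ 2 * lam α := by
  have h1 : ∀ σ ∈ (Finset.univ : Finset (K →ₐ[ℚ] ℂ)), 1 - ‖H388SL.refl (σ α)‖ ≤
      2 * Real.log (max 1 ‖σ α‖) - Real.log ‖σ α‖ := by
    intro σ _
    have hz : 0 < ‖σ α‖ := norm_pos_iff.mpr ((map_ne_zero σ).mpr h0)
    unfold H388SL.refl
    by_cases h : ‖σ α‖ ≤ 1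
    · rw [if_pos h, max_eq_left h, Real.log_one]
      have := Real.log_le_sub_one_of_pos hz
      linarith
    · rw [if_neg h]
      push Not at h
      rw [max_eq_right h.le, norm_inv, RCLike.norm_conj]
      have := Real.one_sub_inv_le_log_of_pos hz
      linarith
  have h2 := Finset.sum_le_sum h1
  have h2' : ∑ σ : K →ₐ[ℚ] ℂ, (2 * Real.log (max 1 ‖σ α‖) - Real.log ‖σ α‖) =
      2 * lam α - ∑ σ : K →ₐ[ℚ] ℂ, Real.log ‖σ α‖ := by
    rw [Finset.sum_sub_distrib, ← Finset.mul_sum]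
    rfl
  rw [h2'] at h2
  have h3 : 0 ≤ ∑ σ : K →ₐ[ℚ] ℂ, Real.log ‖σ α‖ := by
    rw [← Real.log_prod]
    · exact Real.log_nonneg (one_le_prod_norm hα h0)
    · intro σ _
      exact norm_ne_zero_iff.mpr ((map_ne_zero σ).mpr h0)
  linarith

/-- sums over all embeddings, class by class -/
lemma sum_cls {m : ℕ} {ζ : K} (hm : 0 < m) (hζ : IsPrimitiveRoot ζ m) (f : (K →ₐ[ℚ] ℂ) → ℝ) :
    ∑ σ, f σ = ∑ ω ∈ primitiveRoots m ℂ, ∑ σ ∈ cls ζ ω, f σ := by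
  classical
  have h : ∀ σ ∈ (Finset.univ : Finset (K →ₐ[ℚ] ℂ)), σ ζ ∈ primitiveRoots m ℂ := fun σ _ =>
    (mem_primitiveRoots hm).2 (prim hζ σ)
  rw [← Finset.sum_fiberwise_of_maps_to h]
  refine Finset.sum_congr rfl fun ω _ => ?_
  refine Finset.sum_congr ?_ fun _ _ => rfl
  ext τ
  simp [mem_cls]

end

theorem ana : S_AN1 → S_TR → S_FX → S_FXE → S_ANA := by
  classical
  intro hAN hTR hFX hFXE
  obtain ⟨C0, hC1, hC⟩ := hAN
  refine ⟨C0, hC1, ?_⟩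
  intro K _ _ m ζ α hctx κ hκ0 hκ1
  have hm := hctx.hm
  haveI : NeZero m := ⟨hm.ne'⟩
  have hζ := hctx.hζ
  have hφ : 0 < Nat.totient m := Nat.totient_pos.2 hm
  have hφR : (0 : ℝ) < (Nat.totient m : ℝ) := by exact_mod_cast hφ
  have hch : ∀ S : Finset ℂ, ∃ ε : ℂ → ℝ, S.Nonempty → (∀ z ∈ S, 0 < ε z ∧ ε z ≤ 1 / 2) ∧
    ∑ z ∈ S, ε z ≤ κ * (C0 * (1 + Real.circleAverage
      (fun x : ℂ => Real.posLog ‖∏ z ∈ S, (x - z)‖) 0 1
      + ∑ z ∈ S, (1 - ‖H388SL.refl z‖))) ∧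
    ∑ z ∈ S, ∑ w ∈ S, -Real.log ‖1 - (((1 - ε z) * (1 - ε w) : ℝ) : ℂ) *
        (H388SL.refl z * starRingEnd ℂ (H388SL.refl w))‖ ≤
      S.card * (C0 * (1 + Real.circleAverage (fun x : ℂ => Real.posLog ‖∏ z ∈ S, (x - z)‖) 0 1
      + ∑ z ∈ S, (1 - ‖H388SL.refl z‖)) * (1 + Real.log (1 / κ))) := by
    intro S
    by_cases hS : S.Nonempty
    · obtain ⟨ε, h⟩ := hC S hS κ hκ0 hκ1
      exact ⟨ε, fun _ => h⟩
    · exact ⟨fun _ => 0, fun h => absurd h hS⟩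
  choose f hf using hch
  have hne : ∀ ω ∈ primitiveRoots m ℂ, (SS ζ α ω).Nonempty := by
    intro ω hω
    obtain ⟨τ, hτ⟩ := (hTR K m ζ hm hζ).2.1 ω ((mem_primitiveRoots hm).1 hω)
    exact ⟨τ α, hτ ▸ mem_SS ζ α τ⟩
  have hmem : ∀ σ : K →ₐ[ℚ] ℂ, σ ζ ∈ primitiveRoots m ℂ := fun σ =>
    (mem_primitiveRoots hm).2 (prim hζ σ)
  set ε : (K →ₐ[ℚ] ℂ) → ℝ := fun σ => f (SS ζ α (σ ζ)) (σ α) with hε
  have hεcls : ∀ ω : ℂ, ∀ σ ∈ cls ζ ω, ε σ = f (SS ζ α ω) (σ α) := by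
    intro ω σ hσ
    rw [hε]
    simp only
    rw [mem_cls.1 hσ]
  -- the mean of the quantities of the classes
  set W : ℂ → ℝ := fun ω => 1 + Real.circleAverage
      (fun x : ℂ => Real.posLog ‖∏ τ ∈ cls ζ ω, (x - τ α)‖) 0 1
      + ∑ τ ∈ cls ζ ω, (1 - ‖H388SL.refl (τ α)‖) with hW
  have hWeq : ∀ ω : ℂ, 1 + Real.circleAverage
      (fun x : ℂ => Real.posLog ‖∏ z ∈ SS ζ α ω, (x - z)‖) 0 1
      + ∑ z ∈ SS ζ α ω, (1 - ‖H388SL.refl z‖) = W ω := by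
    intro ω
    have e1 : ∀ x : ℂ, ∏ z ∈ SS ζ α ω, (x - z) = ∏ τ ∈ cls ζ ω, (x - τ α) := by
      intro x
      rw [SS, Finset.prod_image (inj_cls hctx ω)]
    have e2 : ∑ z ∈ SS ζ α ω, (1 - ‖H388SL.refl z‖) = ∑ τ ∈ cls ζ ω, (1 - ‖H388SL.refl (τ α)‖) := by
      rw [SS, Finset.sum_image (inj_cls hctx ω)]
    simp only [e1, e2, hW]
  have hWsum : ∑ ω ∈ primitiveRoots m ℂ, W ω ≤
      Nat.totient m * (1 + Mp m ζ α + 2 * (lam α / Nat.totient m)) := by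
    rw [hW]
    simp only
    rw [Finset.sum_add_distrib, Finset.sum_add_distrib, Finset.sum_const,
      Complex.card_primitiveRoots, ← sum_cls hm hζ]
    have h1 := sum_refl_le hctx.hα hctx.h0
    have h2 : (Nat.totient m : ℝ) * (1 + Mp m ζ α + 2 * (lam α / Nat.totient m)) =
        Nat.totient m + ∑ ω ∈ primitiveRoots m ℂ,
          Real.circleAverage (fun x : ℂ => Real.posLog ‖∏ τ ∈ cls ζ ω, (x - τ α)‖) 0 1
          + 2 * lam α := by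
      unfold Mp
      field_simp
    rw [h2, nsmul_eq_mul, mul_one]
    linarith
  refine ⟨ε, ?_, ?_, ?_, ?_⟩
  · intro σ
    exact (hf _ (hne _ (hmem σ))).1 _ (mem_SS ζ α σ)
  · intro σ τ hst
    have hSS : SS ζ α (σ ζ) = SS ζ α (τ ζ) := by
      obtain ⟨u, _, hu, hue⟩ := (IsPrimitiveRoot.isPrimitiveRoot_iff (prim hζ σ)).1 (prim hζ τ)
      have hfix : Fix ζ α u := by
        by_contra hcon
        exact (hFX K m ζ α hctx).1 u hu hcon σ τ (mem_cls.2 hue.symm) hst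
      have h1 := hFXE K m ζ α hctx u hu hfix (σ ζ) (prim hζ σ)
      ext z
      rw [mem_SS_iff, mem_SS_iff, ← hue, h1]
    show f (SS ζ α (σ ζ)) (σ α) = f (SS ζ α (τ ζ)) (τ α)
    rw [hSS, hst]
  · rw [sum_cls hm hζ]
    have h1 : ∀ ω ∈ primitiveRoots m ℂ, ∑ σ ∈ cls ζ ω, ε σ ≤ κ * (C0 * W ω) := by
      intro ω hω
      rw [Finset.sum_congr rfl (hεcls ω), ← hWeq ω]
      have h2 := (hf _ (hne ω hω)).2.1
      have h3 : ∑ σ ∈ cls ζ ω, f (SS ζ α ω) (σ α) = ∑ z ∈ SS ζ α ω, f (SS ζ α ω) z := by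
        conv_rhs => rw [SS]
        rw [Finset.sum_image (inj_cls hctx ω)]
        rfl
      rw [h3]
      exact h2
    refine (Finset.sum_le_sum h1).trans ?_
    rw [← Finset.mul_sum, ← Finset.mul_sum]
    have h4 : κ * (C0 * ∑ ω ∈ primitiveRoots m ℂ, W ω) ≤
        κ * (C0 * (Nat.totient m * (1 + Mp m ζ α + 2 * (lam α / Nat.totient m)))) := by
      have : 0 ≤ C0 := by linarith
      gcongr
    refine h4.trans (le_of_eq ?_)
    ring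
  · have hlog : 0 ≤ Real.log (1 / κ) := Real.log_nonneg (by
      rw [le_div_iff₀ hκ0]; linarith)
    have e1 : EP ζ α ε 1 1 1 1 = ∑ ω ∈ primitiveRoots m ℂ, ∑ z ∈ SS ζ α ω, ∑ w ∈ SS ζ α ω,
        -Real.log ‖1 - (((1 - f (SS ζ α ω) z) * (1 - f (SS ζ α ω) w) : ℝ) : ℂ) *
        (H388SL.refl z * starRingEnd ℂ (H388SL.refl w))‖ := by
      unfold EP
      rw [sum_cls hm hζ]
      refine Finset.sum_congr rfl fun ω hω => ?_
      have e3 : ∀ g : ℂ → ℝ, ∑ z ∈ SS ζ α ω, g z = ∑ σ ∈ cls ζ ω, g (σ α) := by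
        intro g
        rw [SS, Finset.sum_image (inj_cls hctx ω)]
      rw [e3]
      refine Finset.sum_congr rfl fun σ hσ => ?_
      rw [e3, ← Finset.sum_filter]
      have hσ' := mem_cls.1 hσ
      have e4 : (Finset.univ.filter fun τ : K →ₐ[ℚ] ℂ => (σ ζ) ^ 1 = (τ ζ) ^ 1) = cls ζ ω := by
        ext τ
        rw [Finset.mem_filter, mem_cls, pow_one, pow_one, hσ']
        simp only [Finset.mem_univ, true_and]
        exact eq_comm
      rw [e4]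
      refine Finset.sum_congr rfl fun τ hτ => ?_
      rw [ww_mul α ε σ τ one_ne_zero one_ne_zero, pow_one, pow_one, pow_one,
        hεcls ω σ hσ, hεcls ω τ hτ]
    rw [e1]
    have h1 : ∀ ω ∈ primitiveRoots m ℂ, ∑ z ∈ SS ζ α ω, ∑ w ∈ SS ζ α ω,
        -Real.log ‖1 - (((1 - f (SS ζ α ω) z) * (1 - f (SS ζ α ω) w) : ℝ) : ℂ) *
        (H388SL.refl z * starRingEnd ℂ (H388SL.refl w))‖ ≤
        ((finrank ℚ K : ℝ) / Nat.totient m) * (C0 * W ω * (1 + Real.log (1 / κ))) := by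
      intro ω hω
      have h2 := (hf _ (hne ω hω)).2.2
      rw [hWeq ω] at h2
      have h3 : ((SS ζ α ω).card : ℝ) = (finrank ℚ K : ℝ) / Nat.totient m := by
        rw [SS, Finset.card_image_of_injOn (inj_cls hctx ω), eq_div_iff hφR.ne']
        exact_mod_cast (hTR K m ζ hm hζ).2.2 ω ((mem_primitiveRoots hm).1 hω)
      rw [h3] at h2
      exact h2
    refine (Finset.sum_le_sum h1).trans ?_
    rw [← Finset.mul_sum, ← Finset.sum_mul, ← Finset.mul_sum]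
    have hn : (0 : ℝ) ≤ (finrank ℚ K : ℝ) / Nat.totient m := by positivity
    have h4 : (finrank ℚ K : ℝ) / Nat.totient m *
        (C0 * (∑ ω ∈ primitiveRoots m ℂ, W ω) * (1 + Real.log (1 / κ))) ≤
        (finrank ℚ K : ℝ) / Nat.totient m *
        (C0 * (Nat.totient m * (1 + Mp m ζ α + 2 * (lam α / Nat.totient m))) *
          (1 + Real.log (1 / κ))) := by
      have : 0 ≤ C0 := by linarith
      gcongr
    refine h4.trans (le_of_eq ?_)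
    field_simp

end Pool.Agent.Y917.RL
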